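import Mathlib

set_option autoImplicit false

namespace Pool.Agent.Results.MP_2a5e5c_nt.Counter

/-- the generalized binomial coefficient `a (a-1) ⋯ (a-k+1) / k!` -/
def bin (a : ℚ) (k : ℕ) : ℚ := (∏ i ∈ Finset.range k, (a - i)) / (k.factorial : ℚ)

def S1 (p : ℕ) : ℚ := ∑ k ∈ Finset.range p, bin (-1 / 3) k * bin (-1 / 6) k / (-1024) ^ k

def S2 (p : ℕ) : ℚ := ∑ k ∈ Finset.range p, bin (-2 / 3) k * bin (-5 / 6) k / (-1024) ^ k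

def c (p : ℕ) : ℚ :=
  (jacobiSym 41 p : ℚ) * (1025 / 1024) ^ ((1 - jacobiSym p 3) / 2).toNat

def T (p : ℕ) : ℚ := ∑ k ∈ Finset.range ((p - 5) / 6 + 1),
  (((p - 2) / 3).choose k : ℚ) * (((p - 5) / 6).choose k : ℚ) / (-1024) ^ k

/-- `u ≡ v (mod p^m)`: `u - v` is `p^m` times a rational with denominator prime to `p`. -/
def Cong (p m : ℕ) (u v : ℚ) : Prop := ∃ w : ℚ, u - v = (p : ℚ) ^ m * w ∧ Nat.Coprime w.den p

lemma key : ((S1 41) / 41 ^ 2).den % 41 = 0 := by decide +kernel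

theorem result : ¬ ∀ p : ℕ, p.Prime → 3 < p →
    (∀ x y : ℤ, 4 * (p : ℤ) = x ^ 2 + 123 * y ^ 2 →
      Cong p 2 (S1 p) (c p * S2 p) ∧
      Cong p 2 (c p * S2 p) (-(jacobiSym x 3 : ℚ) * ((x : ℚ) - (p : ℚ) / x))) ∧
    (∀ x y : ℤ, 4 * (p : ℤ) = 41 * x ^ 2 + 3 * y ^ 2 →
      Cong p 2 (S1 p) (c p * S2 p) ∧
      Cong p 2 (c p * S2 p) (5 / 32 * (jacobiSym x 3 : ℚ) * (41 * (x : ℚ) - (p : ℚ) / x)) ∧
      Cong p 1 ((x : ℚ) * (jacobiSym x 3 : ℚ)) (-(5 / 32) * T p)) ∧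
    (jacobiSym p 3 = 1 → jacobiSym p 41 = -1 →
      Cong p 1 (S1 p) (c p * S2 p) ∧ Cong p 1 (c p * S2 p) 0) := by
  intro H
  obtain ⟨w, hw, hc⟩ := ((H 41 (by norm_num) (by norm_num)).2.1 2 0 (by norm_num)).1
  have h0 : c 41 = 0 := by
    have : jacobiSym 41 41 = 0 := by norm_num
    simp [c, this]
  rw [h0, zero_mul, sub_zero] at hw
  have h1 : w = S1 41 / 41 ^ 2 := by
    rw [hw]; push_cast; field_simp
  have h2 := key
  rw [← h1] at h2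
  have h3 : 41 ∣ w.den := Nat.dvd_of_mod_eq_zero h2
  have h4 : 41 ∣ Nat.gcd w.den 41 := Nat.dvd_gcd h3 dvd_rfl
  rw [hc] at h4
  omega

end Pool.Agent.Results.MP_2a5e5c_nt.Counter
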